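import Pool.Agent.Helper26.KD.St
import Pool.Agent.Helper84.LE.M_KpInt
import Pool.Agent.Helper84.LE.M_SymT

/-! # Project KD: module M3p (third moments of the kernels) -/

set_option autoImplicit false

open scoped BigOperators ENNReal Topology
open Pool.LE Pool.NL Filter

namespace Pool.KD

namespace M3pM

variable {d : ℕ}

theorem sq_nonneg' (x : Zd d) : 0 ≤ LE.sq x := Finset.sum_nonneg fun _ _ => sq_nonneg _

theorem nn_nonneg (x : Zd d) : 0 ≤ nn x := Real.sqrt_nonneg _

theorem nn_norm (x : Zd d) : nn x = ‖(WithLp.toLp 2 (fun i => (x i : ℝ)) : EuclideanSpace ℝ (Fin d))‖ := by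
  rw [EuclideanSpace.norm_eq]
  unfold nn LE.sq
  congr 1
  refine Finset.sum_congr rfl fun i _ => ?_
  rw [Real.norm_eq_abs, sq_abs]

theorem nn_add (x y : Zd d) : nn (x + y) ≤ nn x + nn y := by
  rw [nn_norm, nn_norm, nn_norm]
  have h : (WithLp.toLp 2 (fun i => ((x + y) i : ℝ)) : EuclideanSpace ℝ (Fin d)) =
      WithLp.toLp 2 (fun i => (x i : ℝ)) + WithLp.toLp 2 (fun i => (y i : ℝ)) := by
    ext i
    simp
  rw [h]
  exact norm_add_le _ _

theorem nn_nb (hBox : StBox) {u y : Zd d} (h : y ∈ nb u) : nn y ≤ nn u + 1 := by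
  obtain ⟨-, -, -, -, -, -, -, -, -, -, -, -, hsq⟩ := hBox d
  have h1 : nn (y - u) = 1 := by
    unfold nn
    rw [hsq u y h, Real.sqrt_one]
  have h2 := nn_add u (y - u)
  rw [add_sub_cancel, h1] at h2
  exact h2

theorem nn_box (hBox : StBox) (hd : 1 ≤ d) {m : ℕ} {x : Zd d} (h : x ∈ bx d m) :
    (1 + nn x) ^ 3 ≤ (d : ℝ) ^ 2 * (1 + (m : ℝ)) ^ 3 := by
  obtain ⟨-, hbx, -⟩ := hBox d
  have h1 := (hbx m x).1 h
  have hd' : (1 : ℝ) ≤ d := by exact_mod_cast hd
  have h2 : LE.sq x ≤ d * (m : ℝ) ^ 2 := by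
    have h3 : LE.sq x ≤ ∑ _i : Fin d, (m : ℝ) ^ 2 := by
      refine Finset.sum_le_sum fun i _ => ?_
      have h4 : |(x i : ℝ)| ≤ m := by exact_mod_cast h1 i
      rw [← sq_abs]
      exact pow_le_pow_left₀ (abs_nonneg _) h4 2
    rw [Finset.sum_const, Finset.card_univ, Fintype.card_fin, nsmul_eq_mul] at h3
    exact h3
  have hs1 : 1 ≤ Real.sqrt d := Real.one_le_sqrt.2 hd'
  have h5 : nn x ≤ Real.sqrt d * m := by
    unfold nn
    calc Real.sqrt (LE.sq x) ≤ Real.sqrt (d * (m : ℝ) ^ 2) := Real.sqrt_le_sqrt h2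
      _ = Real.sqrt d * m := by
        rw [Real.sqrt_mul (by positivity), Real.sqrt_sq (by positivity)]
  have h6 : 1 + nn x ≤ Real.sqrt d * (1 + m) := by
    rw [mul_add, mul_one]
    linarith
  have h7 : (1 + nn x) ^ 3 ≤ (Real.sqrt d * (1 + m)) ^ 3 :=
    pow_le_pow_left₀ (by have := nn_nonneg x; linarith) h6 3
  refine h7.trans ?_
  rw [mul_pow]
  refine mul_le_mul_of_nonneg_right ?_ (by positivity)
  have h8 : Real.sqrt d ^ 2 = d := Real.sq_sqrt (by positivity)
  have h9 : Real.sqrt d ≤ Real.sqrt d ^ 2 := by nlinarith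
  calc Real.sqrt d ^ 3 = Real.sqrt d ^ 2 * Real.sqrt d := by ring
    _ ≤ Real.sqrt d ^ 2 * Real.sqrt d ^ 2 := mul_le_mul_of_nonneg_left h9 (by positivity)
    _ = (d : ℝ) ^ 2 := by rw [h8]; ring

theorem real_of_enn {ι : Type*} {f : ι → ℝ} (hf : ∀ i, 0 ≤ f i) {c : ℝ} (hc : 0 ≤ c)
    (h : ∑' i, ENNReal.ofReal (f i) ≤ ENNReal.ofReal c) : Summable f ∧ ∑' i, f i ≤ c := by
  have h1 : ∑' i, ENNReal.ofReal (f i) ≠ ⊤ := ne_top_of_le_ne_top ENNReal.ofReal_ne_top h
  have h2 : Summable f := by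
    have h3 := ENNReal.summable_toReal h1
    refine h3.congr fun i => ?_
    rw [ENNReal.toReal_ofReal (hf i)]
  refine ⟨h2, ?_⟩
  rw [← ENNReal.ofReal_tsum_of_nonneg hf h2] at h
  exact (ENNReal.ofReal_le_ofReal_iff hc).1 h

/-- exchange of the sums over neighbours -/
theorem nbsum (hBox : StBox) (g w : Zd d → ℝ) (h : Summable (fun u => |g u| * ∑ y ∈ nb u, |w y|)) :
    Summable (fun y => w y * ∑ u ∈ nb y, g u) ∧
      ∑' y, w y * ∑ u ∈ nb y, g u = ∑' u, g u * ∑ y ∈ nb u, w y := by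
  classical
  obtain ⟨-, -, -, hnbs, -⟩ := hBox d
  set G : Zd d × Zd d → ℝ := fun q => if q.2 ∈ nb q.1 then g q.1 * w q.2 else 0 with hG
  have hGa : ∀ q, |G q| = if q.2 ∈ nb q.1 then |g q.1| * |w q.2| else 0 := by
    intro q
    simp only [hG]
    split_ifs
    · rw [abs_mul]
    · rw [abs_zero]
  have hrow : ∀ u, ∑' y, |G (u, y)| = |g u| * ∑ y ∈ nb u, |w y| := by
    intro u
    rw [tsum_eq_sum (s := nb u) (by
      intro y hy
      rw [hGa]
      exact if_neg hy), Finset.mul_sum]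
    refine Finset.sum_congr rfl fun y hy => ?_
    rw [hGa]
    exact if_pos hy
  have hGS : Summable G := by
    rw [← summable_abs_iff]
    refine (summable_prod_of_nonneg (fun q => abs_nonneg _)).2 ⟨?_, ?_⟩
    · intro u
      refine summable_of_ne_finset_zero (s := nb u) ?_
      intro y hy
      rw [hGa]
      exact if_neg hy
    · exact h.congr fun u => (hrow u).symm
  have hcol : ∀ y, ∑' u, G (u, y) = w y * ∑ u ∈ nb y, g u := by
    intro y
    rw [tsum_eq_sum (s := nb y) (by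
      intro u hu
      simp only [hG]
      rw [if_neg]
      intro h1
      exact hu ((hnbs u y).1 h1)), Finset.mul_sum]
    refine Finset.sum_congr rfl fun u hu => ?_
    simp only [hG]
    rw [if_pos ((hnbs u y).2 hu), mul_comm]
  have hrow' : ∀ u, ∑' y, G (u, y) = g u * ∑ y ∈ nb u, w y := by
    intro u
    rw [tsum_eq_sum (s := nb u) (by
      intro y hy
      simp only [hG]
      exact if_neg hy), Finset.mul_sum]
    refine Finset.sum_congr rfl fun y hy => ?_
    simp only [hG]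
    exact if_pos hy
  refine ⟨?_, ?_⟩
  · have h1 := (hGS.prod_symm).prod
    exact h1.congr fun y => hcol y
  · rw [← tsum_congr hcol, ← tsum_congr hrow']
    have h2 : Summable (Function.uncurry fun u y => G (u, y)) := hGS
    exact h2.tsum_comm

theorem sq_single (i : Fin d) : LE.sq (Pi.single i (1 : ℤ) : Zd d) = 1 := by
  unfold LE.sq
  rw [Finset.sum_eq_single i]
  · simp
  · intro j _ hj
    rw [Pi.single_eq_of_ne hj]
    simp
  · intro h
    exact absurd (Finset.mem_univ i) h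

theorem sum_sq_nb (u : Zd d) : ∑ y ∈ nb u, LE.sq y = 2 * d * LE.sq u + 2 * d := by
  rw [KpIntaux.sum_nb u LE.sq]
  have h1 : ∀ i : Fin d, LE.sq (u + Pi.single i 1) + LE.sq (u - Pi.single i 1) = 2 * LE.sq u + 2 := by
    intro i
    have h2 := sq_single i
    have h3 : LE.sq (u + Pi.single i 1) + LE.sq (u - Pi.single i 1) =
        2 * LE.sq u + 2 * LE.sq (Pi.single i (1 : ℤ) : Zd d) := by
      unfold LE.sq
      rw [← Finset.sum_add_distrib, Finset.mul_sum, Finset.mul_sum, ← Finset.sum_add_distrib]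
      refine Finset.sum_congr rfl fun j _ => ?_
      simp only [Pi.add_apply, Pi.sub_apply, Int.cast_add, Int.cast_sub]
      ring
    rw [h3, h2]
    ring
  rw [Finset.sum_congr rfl fun i _ => h1 i, Finset.sum_const, Finset.card_univ, Fintype.card_fin, nsmul_eq_mul]
  ring

/-- the third moment of `g` -/
theorem m3g (hCvA : StCvA) (hSupp : StSupp) (hBox : StBox) (p : ℝ) (hd : 1 ≤ d) (hG : G3Z d p) (he : eta d p ≠ ⊤) :
    M3 (gS d p) (2 * (d : ℝ) ^ 2) := by
  obtain ⟨-, -, -, -, hgh, -, -⟩ := hCvA d p he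
  have hbx0 := (hBox d).1
  have hd' : (1 : ℝ) ≤ d := by exact_mod_cast hd
  have hd2 : (1 : ℝ) ≤ (d : ℝ) ^ 2 := one_le_pow₀ hd'
  have hzero : ∀ (m : ℕ) (x : Zd d), x ∉ bx d m → hm d p m x = 0 := by
    intro m x hx
    have h1 := (hSupp d p m x hx).2
    unfold hm
    rw [h1, if_neg, sub_zero]
    rintro ⟨rfl, rfl⟩
    exact hx ((hbx0 0).2 rfl)
  have hcube : ∀ x : Zd d, 0 ≤ (1 + nn x) ^ 3 := fun x => by
    have := nn_nonneg x
    positivity
  have hpt : ∀ x : Zd d, ENNReal.ofReal ((1 + nn x) ^ 3 * |hS d p x|) ≤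
      ENNReal.ofReal ((d : ℝ) ^ 2) * ∑' m : ℕ, (1 + (m : ENNReal)) ^ 3 * ENNReal.ofReal |hm d p m x| := by
    intro x
    rw [ENNReal.ofReal_mul (hcube x)]
    have h1 : ENNReal.ofReal |hS d p x| ≤ ∑' m : ℕ, ENNReal.ofReal |hm d p m x| := by
      have h2 := enorm_tsum_le_tsum_enorm (f := fun m => hm d p m x)
      have h3 : ∀ a : ℝ, ‖a‖ₑ = ENNReal.ofReal |a| := fun a => by
        rw [← ofReal_norm_eq_enorm, Real.norm_eq_abs]
      simp only [h3] at h2
      exact h2
    refine (mul_le_mul_right h1 _).trans ?_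
    rw [← ENNReal.tsum_mul_left, ← ENNReal.tsum_mul_left]
    refine ENNReal.tsum_le_tsum fun m => ?_
    by_cases hx : x ∈ bx d m
    · rw [← mul_assoc]
      refine mul_le_mul_left ?_ _
      have h4 : (1 + (m : ENNReal)) ^ 3 = ENNReal.ofReal ((1 + (m : ℝ)) ^ 3) := by
        rw [ENNReal.ofReal_pow (by positivity), ENNReal.ofReal_add zero_le_one (by positivity), ENNReal.ofReal_one,
          ENNReal.ofReal_natCast]
      rw [h4, ← ENNReal.ofReal_mul (by positivity)]
      exact ENNReal.ofReal_le_ofReal (nn_box hBox hd hx)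
    · rw [hzero m x hx, abs_zero, ENNReal.ofReal_zero, mul_zero, mul_zero]
      exact bot_le
  have hsum : ∑' x : Zd d, ENNReal.ofReal ((1 + nn x) ^ 3 * |hS d p x|) ≤ ENNReal.ofReal ((d : ℝ) ^ 2 * (1 / 4)) := by
    refine (ENNReal.tsum_le_tsum hpt).trans ?_
    rw [ENNReal.tsum_mul_left, ENNReal.ofReal_mul (by positivity)]
    exact mul_le_mul_right hG _
  obtain ⟨hS1, hS2⟩ := real_of_enn (fun x => mul_nonneg (hcube x) (abs_nonneg _)) (by positivity) hsum
  have hdelta : HasSum (fun x : Zd d => if x = 0 then (1 : ℝ) else 0) 1 := by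
    exact hasSum_ite_eq (0 : Zd d) (1 : ℝ)
  have hle : ∀ x : Zd d, (1 + nn x) ^ 3 * |gS d p x| ≤
      (1 + nn x) ^ 3 * |hS d p x| + if x = 0 then (1 : ℝ) else 0 := by
    intro x
    rw [hgh]
    unfold dl
    by_cases hx : x = 0
    · rw [if_pos hx, hx]
      have h0 : nn (0 : Zd d) = 0 := by
        unfold nn LE.sq
        simp
      rw [h0]
      have h1 := abs_add_le (hS d p 0) 1
      rw [abs_one] at h1
      norm_num
      exact h1
    · rw [if_neg hx, add_zero, add_zero]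
  have hsumm : Summable (fun x : Zd d => (1 + nn x) ^ 3 * |hS d p x| + if x = 0 then (1 : ℝ) else 0) :=
    hS1.add hdelta.summable
  have hg : Summable (fun x : Zd d => (1 + nn x) ^ 3 * |gS d p x|) :=
    Summable.of_nonneg_of_le (fun x => mul_nonneg (hcube x) (abs_nonneg _)) hle hsumm
  refine ⟨hg, ?_⟩
  have h1 := hg.tsum_le_tsum hle hsumm
  rw [hS1.tsum_add hdelta.summable, hdelta.tsum_eq] at h1
  linarith

end M3pM

open M3pM in
/-- **MODULE M3p.** -/
theorem hM3p (hCvA : StCvA) (hSupp : StSupp) (hBox : StBox) : StM3p := by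
  intro d p hd hp0 hp1 hG he
  have hg := m3g hCvA hSupp hBox p hd hG he
  obtain ⟨-, -, -, -, -, -, hsym⟩ := hCvA d p he
  obtain ⟨-, -, -, -, -, -, -, -, -, -, -, hcard, -⟩ := hBox d
  have hd' : (1 : ℝ) ≤ d := by exact_mod_cast hd
  have hcube : ∀ x : Zd d, 0 ≤ (1 + nn x) ^ 3 := fun x => by
    have := nn_nonneg x
    positivity
  have hcube1 : ∀ x : Zd d, 1 ≤ (1 + nn x) ^ 3 := fun x => by
    have := nn_nonneg x
    exact one_le_pow₀ (by linarith)
  have hsqc : ∀ x : Zd d, LE.sq x ≤ (1 + nn x) ^ 3 := fun x => by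
    have h1 := nn_nonneg x
    have h2 : nn x ^ 2 = LE.sq x := Real.sq_sqrt (sq_nonneg' x)
    rw [← h2]
    nlinarith [pow_nonneg h1 3]
  have hcn : ∀ u : Zd d, ∑ y ∈ nb u, (1 + nn y) ^ 3 ≤ 16 * d * (1 + nn u) ^ 3 := by
    intro u
    have h1 : ∑ y ∈ nb u, (1 + nn y) ^ 3 ≤ ∑ _y ∈ nb u, (2 * (1 + nn u)) ^ 3 := by
      refine Finset.sum_le_sum fun y hy => ?_
      refine pow_le_pow_left₀ (by have := nn_nonneg y; linarith) ?_ 3
      have h2 := nn_nb hBox hy
      have h3 := nn_nonneg u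
      linarith
    refine h1.trans (le_of_eq ?_)
    rw [Finset.sum_const, hcard, nsmul_eq_mul]
    push_cast
    ring
  -- the general exchange for weights bounded by the cubes
  have hex : ∀ w : Zd d → ℝ, (∀ y, |w y| ≤ (1 + nn y) ^ 3) →
      Summable (fun u => |gS d p u| * ∑ y ∈ nb u, |w y|) := by
    intro w hw
    refine Summable.of_nonneg_of_le
      (fun u => mul_nonneg (abs_nonneg _) (Finset.sum_nonneg fun _ _ => abs_nonneg _)) (fun u => ?_)
      (hg.summ.mul_left (16 * (d : ℝ)))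
    have h1 : ∑ y ∈ nb u, |w y| ≤ 16 * d * (1 + nn u) ^ 3 :=
      (Finset.sum_le_sum fun y _ => hw y).trans (hcn u)
    have h2 := mul_le_mul_of_nonneg_left h1 (abs_nonneg (gS d p u))
    linarith
  refine ⟨hg, ?_, ?_, ?_, ?_⟩
  · -- the third moment of the step kernel
    have h1 := nbsum hBox (fun u => |gS d p u|) (fun y => (1 + nn y) ^ 3)
      ((hex (fun y => (1 + nn y) ^ 3) (fun y => by rw [abs_of_nonneg (hcube y)])).congr fun u => by
        rw [abs_abs])
    obtain ⟨hs, ht⟩ := h1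
    have hle : ∀ y : Zd d, (1 + nn y) ^ 3 * |FZ d p y| ≤ p * ((1 + nn y) ^ 3 * ∑ u ∈ nb y, |gS d p u|) := by
      intro y
      have h2 : |FZ d p y| ≤ p * ∑ u ∈ nb y, |gS d p u| := by
        unfold FZ
        rw [abs_mul, abs_of_nonneg hp0]
        exact mul_le_mul_of_nonneg_left (Finset.abs_sum_le_sum_abs _ _) hp0
      have h3 := mul_le_mul_of_nonneg_left h2 (hcube y)
      linarith
    have hF : Summable (fun y : Zd d => (1 + nn y) ^ 3 * |FZ d p y|) :=
      Summable.of_nonneg_of_le (fun y => mul_nonneg (hcube y) (abs_nonneg _)) hle (hs.mul_left p)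
    refine ⟨hF, ?_⟩
    have h4 := hF.tsum_le_tsum hle (hs.mul_left p)
    rw [tsum_mul_left, ht] at h4
    have h5 : ∑' u : Zd d, |gS d p u| * ∑ y ∈ nb u, (1 + nn y) ^ 3 ≤ 16 * d * (2 * (d : ℝ) ^ 2) := by
      have h6 : ∀ u : Zd d, |gS d p u| * ∑ y ∈ nb u, (1 + nn y) ^ 3 ≤ 16 * d * ((1 + nn u) ^ 3 * |gS d p u|) := by
        intro u
        have h7 := mul_le_mul_of_nonneg_left (hcn u) (abs_nonneg (gS d p u))
        linarith
      have h8 : Summable (fun u : Zd d => |gS d p u| * ∑ y ∈ nb u, (1 + nn y) ^ 3) := by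
        refine (hex (fun y => (1 + nn y) ^ 3) (fun y => by rw [abs_of_nonneg (hcube y)])).congr fun u => ?_
        congr 1
        exact Finset.sum_congr rfl fun y _ => abs_of_nonneg (hcube y)
      have h9 := h8.tsum_le_tsum h6 (hg.summ.mul_left _)
      rw [tsum_mul_left] at h9
      exact h9.trans (mul_le_mul_of_nonneg_left hg.le (by positivity))
    have h10 := mul_le_mul_of_nonneg_left h5 hp0
    refine h4.trans (h10.trans (le_of_eq ?_))
    ring
  · -- symmetry
    intro σ s x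
    unfold FZ
    rw [sym_sum_nb σ s x (gS d p)]
    congr 1
    exact Finset.sum_congr rfl fun u _ => hsym σ s u
  · -- the total mass
    obtain ⟨-, ht⟩ := nbsum hBox (gS d p) (fun _ => 1)
      (hex (fun _ => 1) (fun y => by rw [abs_one]; exact hcube1 y))
    have h1 : ∀ u : Zd d, gS d p u * ∑ _y ∈ nb u, (1 : ℝ) = 2 * d * gS d p u := by
      intro u
      rw [Finset.sum_const, hcard, nsmul_eq_mul]
      push_cast
      ring
    simp only [one_mul] at ht
    rw [tsum_congr h1, tsum_mul_left] at ht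
    have h2 : ∀ y : Zd d, FZ d p y = p * ∑ u ∈ nb y, gS d p u := fun y => rfl
    have e3 : FT (gS d p) 0 = ∑' u, gS d p u := by
      unfold FT
      refine tsum_congr fun u => ?_
      simp
    rw [tsum_congr h2, tsum_mul_left, ht, e3]
    ring
  · -- the second moment
    obtain ⟨-, ht⟩ := nbsum hBox (gS d p) LE.sq
      (hex LE.sq (fun y => by rw [abs_of_nonneg (sq_nonneg' y)]; exact hsqc y))
    have hs0 : Summable (fun u : Zd d => gS d p u) := by
      refine Summable.of_norm_bounded hg.summ fun u => ?_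
      rw [Real.norm_eq_abs]
      have h1 := mul_le_mul_of_nonneg_right (hcube1 u) (abs_nonneg (gS d p u))
      linarith
    have hs2 : Summable (fun u : Zd d => LE.sq u * gS d p u) := by
      refine Summable.of_norm_bounded hg.summ fun u => ?_
      rw [Real.norm_eq_abs, abs_mul, abs_of_nonneg (sq_nonneg' u)]
      exact mul_le_mul_of_nonneg_right (hsqc u) (abs_nonneg _)
    have h1 : ∀ u : Zd d, gS d p u * ∑ y ∈ nb u, LE.sq y = 2 * d * (LE.sq u * gS d p u) + 2 * d * gS d p u := by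
      intro u
      rw [sum_sq_nb]
      ring
    rw [tsum_congr h1, (hs2.mul_left _).tsum_add (hs0.mul_left _), tsum_mul_left, tsum_mul_left] at ht
    have h2 : ∀ y : Zd d, LE.sq y * FZ d p y = p * (LE.sq y * ∑ u ∈ nb y, gS d p u) := by
      intro y
      unfold FZ
      ring
    have e3 : FT (gS d p) 0 = ∑' u, gS d p u := by
      unfold FT
      refine tsum_congr fun u => ?_
      simp
    rw [tsum_congr h2, tsum_mul_left, ht, e3]
    have hd0 : (2 * (d : ℝ)) ≠ 0 := by positivity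
    field_simp
    ring

end Pool.KD
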